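import Pool.Agent.Helper79.CF.Spec

set_option autoImplicit false

namespace Pool.Agent.Helper71.CF.DEV

open Finset Filter Topology MeasureTheory Pool.Agent.Helper79.CF
open Pool.Agent.Q138.GS (th)

theorem sum_shift (f : ℕ → ℂ) (N : ℕ) : ∑ n ∈ Icc 1 N, f n = ∑ m ∈ range N, f (m + 1) := by
  induction N with
  | zero => simp
  | succ N ih => rw [Finset.sum_Icc_succ_top (by omega), ih, Finset.sum_range_succ]

theorem cast_absdiff (a b : ℕ) : (((a - b) + (b - a) : ℕ) : ℝ) = |(a : ℝ) - b| := by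
  rcases le_total a b with h | h
  · rw [Nat.sub_eq_zero_of_le h, zero_add, Nat.cast_sub h, abs_sub_comm,
      abs_of_nonneg (sub_nonneg.2 (by exact_mod_cast h))]
  · rw [Nat.sub_eq_zero_of_le h, add_zero, Nat.cast_sub h,
      abs_of_nonneg (sub_nonneg.2 (by exact_mod_cast h))]

theorem main (hF : S_FLR) (hE : S_ELL) : S_DEV := by
  intro P s N x t hx1 hx2 ht0 ht1 hamb
  have hJpos : 0 < JJ P N := by
    unfold JJ
    refine Finset.sum_pos (fun i _ => by omega) ⟨0, by simp⟩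
  have hJ' : (0 : ℝ) < (JJ P N : ℝ) := by exact_mod_cast hJpos
  have hfl : ∀ m < N, ⌊(1 + t) * (P (m + 1) : ℝ)⌋₊ = mv P (UU P N) x (m + 1) :=
    fun m hm => hF P (UU P N) x (m + 1) t hx1 hx2 (hamb m hm)
  obtain ⟨a, ha⟩ : ∃ a : ℕ → ℝ, a = fun m => ((s (m + 1)).toNat : ℝ) := ⟨_, rfl⟩
  obtain ⟨M, hM⟩ : ∃ M : ℕ → ℕ, M = fun m => mv P (UU P N) x (m + 1) := ⟨_, rfl⟩
  obtain ⟨δ, hδ⟩ : ∃ δ : ℕ → ℝ, δ = fun m => ((decide (M m).Prime).toNat : ℝ) := ⟨_, rfl⟩
  have ha01 : ∀ m, 0 ≤ a m ∧ a m ≤ 1 := by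
    intro m
    rw [ha]
    simp only
    cases s (m + 1) <;> simp
  have hδ01 : ∀ m, 0 ≤ δ m ∧ δ m ≤ 1 := by
    intro m
    rw [hδ]
    simp only
    cases decide (M m).Prime <;> simp
  have hSS : SS P s t N = ((∑ m ∈ range N, a m * (δ m * Real.log (M m) - 1) : ℝ) : ℂ) := by
    unfold SS
    rw [sum_shift, Complex.ofReal_sum]
    refine Finset.sum_congr rfl fun m hm => ?_
    have hm' : m < N := Finset.mem_range.1 hm
    rw [hfl m hm', ha, hδ, hM]
    simp only [th]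
    by_cases hs : s (m + 1) = true <;>
      by_cases hp : (mv P (UU P N) x (m + 1)).Prime <;> simp [hs, hp]
  have hWW : (WW P s N x : ℝ) = ∑ m ∈ range N, a m * (δ m * (ell (JJ P N) (M m) : ℝ)) := by
    unfold WW
    rw [ha, hδ, hM]
    push_cast
    rfl
  have hW0 : (W0 P s N : ℝ) = ∑ m ∈ range N, a m * (JJ P N : ℝ) := by
    unfold W0
    rw [ha]
    push_cast
    rfl
  have hterm : ∀ m < N, |δ m * ((ell (JJ P N) (M m) : ℝ) / JJ P N - Real.log (M m))|
      ≤ (2 * (P (m + 1) : ℝ)) / JJ P N := by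
    intro m hm
    by_cases hp : (M m).Prime
    · have h1 : δ m = 1 := by rw [hδ]; simp [hp]
      rw [h1, one_mul]
      have hM1 : 1 ≤ M m := hp.one_lt.le
      have h2 := hE (JJ P N) (M m) hJpos hM1
      have h3 : (ell (JJ P N) (M m) : ℝ) / JJ P N - Real.log (M m)
          = ((ell (JJ P N) (M m) : ℝ) - JJ P N * Real.log (M m)) / JJ P N := by
        field_simp
      rw [h3, abs_div, abs_of_pos hJ']
      refine div_le_div_of_nonneg_right (h2.trans ?_) hJ'.le
      have hMpos : (0 : ℝ) < (M m : ℝ) := by exact_mod_cast hM1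
      have h4 : Real.log (M m) ≤ (M m : ℝ) - 1 := Real.log_le_sub_one_of_pos hMpos
      have h5 : (M m : ℝ) ≤ 2 * (P (m + 1) : ℝ) := by
        have h6 : M m = ⌊(1 + t) * (P (m + 1) : ℝ)⌋₊ := by rw [hfl m hm, hM]
        rw [h6]
        have hP0 : (0 : ℝ) ≤ (P (m + 1) : ℝ) := Nat.cast_nonneg _
        refine (Nat.floor_le (mul_nonneg (by linarith) hP0)).trans ?_
        exact mul_le_mul_of_nonneg_right (by linarith) hP0
      linarith
    · have h1 : δ m = 0 := by rw [hδ]; simp [hp]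
      rw [h1, zero_mul, abs_zero]
      positivity
  have hsum : ∑ m ∈ range N, 2 * (P (m + 1) : ℝ) ≤ JJ P N := by
    have h1 : (JJ P N : ℝ) = ∑ n ∈ range (N + 1), (2 * (P n : ℝ) + 2) := by
      unfold JJ; push_cast; rfl
    rw [h1, Finset.sum_range_succ']
    have h2 : ∑ m ∈ range N, 2 * (P (m + 1) : ℝ) ≤ ∑ m ∈ range N, (2 * (P (m + 1) : ℝ) + 2) :=
      Finset.sum_le_sum fun m _ => by linarith
    have h3 : (0 : ℝ) ≤ 2 * (P 0 : ℝ) + 2 := by positivity
    linarith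
  have hAB : ((WW P s N x : ℝ) - W0 P s N) / JJ P N
      - ∑ m ∈ range N, a m * (δ m * Real.log (M m) - 1)
      = ∑ m ∈ range N, a m * (δ m * ((ell (JJ P N) (M m) : ℝ) / JJ P N - Real.log (M m))) := by
    rw [hWW, hW0, ← Finset.sum_sub_distrib, Finset.sum_div, ← Finset.sum_sub_distrib]
    refine Finset.sum_congr rfl fun m _ => ?_
    field_simp
    ring
  have hdiff : |((WW P s N x : ℝ) - W0 P s N) / JJ P N
      - ∑ m ∈ range N, a m * (δ m * Real.log (M m) - 1)| ≤ 1 := by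
    rw [hAB]
    refine (Finset.abs_sum_le_sum_abs _ _).trans ?_
    have h1 : ∑ m ∈ range N, |a m * (δ m * ((ell (JJ P N) (M m) : ℝ) / JJ P N - Real.log (M m)))|
        ≤ ∑ m ∈ range N, (2 * (P (m + 1) : ℝ)) / JJ P N := by
      refine Finset.sum_le_sum fun m hm => ?_
      rw [abs_mul, abs_of_nonneg (ha01 m).1]
      have h2 := hterm m (Finset.mem_range.1 hm)
      exact (mul_le_of_le_one_left (abs_nonneg _) (ha01 m).2).trans h2
    refine h1.trans ?_
    rw [← Finset.sum_div, div_le_one hJ']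
    exact hsum
  have hnorm : ‖SS P s t N‖ = |∑ m ∈ range N, a m * (δ m * Real.log (M m) - 1)| := by
    rw [hSS, Complex.norm_real, Real.norm_eq_abs]
  have hdev : (dev P s N x : ℝ) / JJ P N = |((WW P s N x : ℝ) - W0 P s N) / JJ P N| := by
    unfold dev
    rw [cast_absdiff, abs_div, abs_of_pos hJ']
  rw [hnorm, hdev]
  exact (abs_abs_sub_abs_le_abs_sub _ _).trans hdiff

end Pool.Agent.Helper71.CF.DEV
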